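import Pool.Agent.H77.BC.Targets

/-!
# ADC (board bcp_modules): definable vector spaces are connected
-/

set_option autoImplicit false

open Set

namespace Pool.Agent.H34.BCP

open Pool.Agent.H77.BC

theorem pf_ADC {M : Type} (U : RU M) (hA : RKA U) (hB : RKB U) (hG : GRA U) (hF : FCN U) :
    ADC U := by
  intro K V _ _ _ _ _ _ _ _ A hAd hrk
  have : DG U (Multiplicative V) := dgMult (K := K)
  have : DG U (Multiplicative K) := dgMult (K := K)
  have hV : Ful U V := (inferInstance : DV U K V).toFul
  -- `A` has finite index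
  have h1 : (AddSubgroup.toSubgroup A).relIndex (⊤ : Subgroup (Multiplicative V)) ≠ 0 := by
    rw [hG (⊤ : Subgroup (Multiplicative V)) (AddSubgroup.toSubgroup A) _ _ le_top]
    · exact hrk
    · exact hV.full
    · exact hAd
  have h2 : A.index ≠ 0 := by
    rw [Subgroup.relIndex_top_right] at h1
    exact h1
  rw [eq_top_iff]
  intro v _
  -- the multiples of `v` in `A`
  let φ : K →+ V := (LinearMap.toSpanSingleton K V v).toAddMonoidHom
  have h3 : DFn U (fun t : K => t • v) :=
    DFn_comp (g := fun p : K × V => p.1 • p.2) DV.smul (DFn_pair DFn_id (DFn_const v))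
  have h4 : U.D ((A.comap φ : AddSubgroup K) : Set K) := DFn_preim h3 hAd
  have h5 : (A.comap φ).index ≠ 0 := by
    have hfi : A.FiniteIndex := ⟨h2⟩
    rw [AddSubgroup.index_comap]
    have hfi2 : (A.addSubgroupOf φ.range).FiniteIndex := inferInstance
    exact hfi2.index_ne_zero
  have h6 : (AddSubgroup.toSubgroup (A.comap φ)).relIndex (⊤ : Subgroup (Multiplicative K)) ≠ 0 := by
    rw [Subgroup.relIndex_top_right]
    exact h5
  rw [hG (⊤ : Subgroup (Multiplicative K)) (AddSubgroup.toSubgroup (A.comap φ)) _ _ le_top] at h6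
  · have h7 : A.comap φ = ⊤ := hF (A.comap φ) h4 h6
    have h8 : (1 : K) ∈ A.comap φ := by
      rw [h7]
      trivial
    have h9 : (1 : K) • v ∈ A := h8
    rwa [one_smul] at h9
  · exact (inferInstance : Ful U K).full
  · exact h4

end Pool.Agent.H34.BCP
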