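import Pool.Agent.H77.BC.Targets

/-!
# FSL (board bcp_modules): roots in definable subfields
-/

set_option autoImplicit false

open Set

namespace Pool.Agent.H34.BCP

open Pool.Agent.H77.BC

/-- the code of a subfield -/
@[reducible] def codSub {M K : Type} [Field K] [Cod M K] (L : Subfield K) : Cod M L :=
  ⟨Cod.ι M K, inferInstance, fun x => Cod.c (x : K), fun _ _ h =>
    Subtype.ext (Cod.inj (M := M) h)⟩

theorem fulSub {M K : Type} {U : RU M} [Field K] [Cod M K] (L : Subfield K)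
    (hL : U.D (L : Set K)) : @Ful M U L (codSub L) := by
  let cL : Cod M L := codSub (M := M) L
  refine ⟨?_⟩
  unfold RU.D
  have e : Cod.c (M := M) '' (univ : Set L) = Cod.c (M := M) '' (L : Set K) := by
    ext z
    constructor
    · rintro ⟨x, -, rfl⟩
      exact ⟨(x : K), x.2, rfl⟩
    · rintro ⟨x, hx, rfl⟩
      exact ⟨⟨x, hx⟩, mem_univ _, rfl⟩
  rw [e]
  exact hL

theorem opSub {M K : Type} {U : RU M} [Field K] [Cod M K] (L : Subfield K)
    (hL : U.D (L : Set K)) (f : K × K → K) (g : L × L → L)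
    (hg : ∀ p : L × L, ((g p : L) : K) = f ((p.1 : K), (p.2 : K))) (hf : DFn U f) :
    @DFn M U (L × L) L (@codProd M L L (codSub L) (codSub L)) (codSub L) g := by
  let cL : Cod M L := codSub (M := M) L
  unfold DFn
  have h := D_inter hf (D_prod (D_prod hL hL) hL)
  unfold RU.D at h ⊢
  have e : Cod.c (M := M) '' {p : (L × L) × L | p.2 = g p.1} =
      Cod.c (M := M) '' ({p : (K × K) × K | p.2 = f p.1} ∩
        ((L : Set K) ×ˢ (L : Set K)) ×ˢ (L : Set K)) := by
    ext z
    constructor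
    · rintro ⟨p, hp, rfl⟩
      have hp' : p.2 = g p.1 := hp
      refine ⟨(((p.1.1 : K), (p.1.2 : K)), (p.2 : K)), ⟨?_, ⟨⟨p.1.1.2, p.1.2.2⟩, p.2.2⟩⟩, ?_⟩
      · change (p.2 : K) = f ((p.1.1 : K), (p.1.2 : K))
        rw [hp', hg]
      · funext i
        rcases i with (i | i) | i <;> rfl
    · rintro ⟨p, ⟨hp, ⟨⟨h1, h2⟩, h3⟩⟩, rfl⟩
      refine ⟨((⟨p.1.1, h1⟩, ⟨p.1.2, h2⟩), ⟨p.2, h3⟩), ?_, ?_⟩
      · change (⟨p.2, h3⟩ : L) = g (⟨p.1.1, h1⟩, ⟨p.1.2, h2⟩)
        apply Subtype.ext
        rw [hg]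
        exact hp
      · funext i
        rcases i with (i | i) | i <;> rfl
  rw [e]
  exact h

theorem pf_FSL {M : Type} (U : RU M) (hS : FSP U) : FSL U := by
  intro K _ _ _ L hL hinf
  let cL : Cod M L := codSub (M := M) L
  have hful : Ful U L := fulSub L hL
  have hDF : DF U L := by
    refine ⟨?_, ?_⟩
    · exact opSub L hL (fun p : K × K => p.1 + p.2) (fun p : L × L => p.1 + p.2)
        (fun p => rfl) DF.add
    · exact opSub L hL (fun p : K × K => p.1 * p.2) (fun p : L × L => p.1 * p.2)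
        (fun p => rfl) DF.mul
  have : Infinite L := infinite_coe_iff.2 hinf
  have h := hS (K := L)
  refine ⟨?_, ?_⟩
  · intro q hq x hx
    obtain ⟨y, hy⟩ := h.1 q hq ⟨x, hx⟩
    exact ⟨y, y.2, congrArg Subtype.val hy⟩
  · intro p hp hc x hx
    have : CharP L p := by
      refine ⟨fun n => ?_⟩
      rw [← CharP.cast_eq_zero_iff K p n]
      constructor
      · intro h0
        have h1 := congrArg (Subtype.val : L → K) h0
        simpa using h1
      · intro h0
        apply Subtype.ext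
        simpa using h0
    obtain ⟨y, hy⟩ := h.2 p hp inferInstance ⟨x, hx⟩
    exact ⟨y, y.2, congrArg Subtype.val hy⟩

end Pool.Agent.H34.BCP
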