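import Pool.Agent.H77.BC.Targets

/-!
# SRF (board bcp_modules): infinite definable subrings are fields
-/

set_option autoImplicit false

open Set

namespace Pool.Agent.H34.BCP

open Pool.Agent.H77.BC

/-- multiples of a subring -/
def mulR {K : Type} [Field K] (R : AddSubgroup K) (r : K) (i : ℕ) : Subgroup (Multiplicative K) :=
  AddSubgroup.toSubgroup (R.map (AddMonoidHom.mulLeft (r ^ i)))

theorem mem_mulR {K : Type} [Field K] (R : AddSubgroup K) (r : K) (i : ℕ) (x : K) :
    Multiplicative.ofAdd x ∈ mulR R r i ↔ ∃ y ∈ R, r ^ i * y = x := Iff.rfl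

theorem pf_SRF {M : Type} (U : RU M) (hA : RKA U) (hB : RKB U) (hG : GRA U) (hD : GRD U) :
    SRF U := by
  intro K _ _ _ R hR hmul hinf
  have : DG U (Multiplicative K) := dgMult (K := K)
  have hpow : ∀ (r : K), r ∈ R → ∀ (n : ℕ) (y : K), y ∈ R → r ^ n * y ∈ R := by
    intro r hr n
    induction n with
    | zero => intro y hy; simpa using hy
    | succ n ih =>
      intro y hy
      have e : r ^ (n + 1) * y = r ^ n * (r * y) := by ring
      rw [e]
      exact ih _ (hmul r hr y hy)
  have hinv : ∀ r ∈ R, r ≠ 0 → r⁻¹ ∈ R := by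
    intro r hr hr0
    have hdef : ∀ i, U.D (mulR R r i : Set (Multiplicative K)) := by
      intro i
      have h1 : DFn U (fun x : K => r ^ i * x) := DFn_mul (DFn_const _) DFn_id
      have h2 := DFn_image h1 hR
      exact h2
    obtain ⟨J, hJ⟩ := hD (mulR R r) hdef
    have h3 : Multiplicative.ofAdd (r ^ (J.sup id) * r) ∈ (⨅ j ∈ J, mulR R r j) := by
      rw [Subgroup.mem_iInf]
      intro j
      rw [Subgroup.mem_iInf]
      intro hj
      rw [mem_mulR]
      have hle : j ≤ J.sup id := Finset.le_sup (f := id) hj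
      refine ⟨r ^ (J.sup id - j) * r, hpow r hr _ r hr, ?_⟩
      rw [← mul_assoc, ← pow_add]
      congr 2
      omega
    have h4 := hJ (J.sup id + 2) h3
    rw [mem_mulR] at h4
    obtain ⟨y, hy, e⟩ := h4
    have h5 : r ^ (J.sup id + 1) ≠ 0 := pow_ne_zero _ hr0
    have h6 : r ^ (J.sup id + 1) * (r * y) = r ^ (J.sup id + 1) * 1 := by
      rw [mul_one]
      calc r ^ (J.sup id + 1) * (r * y) = r ^ (J.sup id + 2) * y := by ring
        _ = r ^ (J.sup id) * r := e
        _ = r ^ (J.sup id + 1) := by ring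
    have h7 : r * y = 1 := mul_left_cancel₀ h5 h6
    have h8 : r⁻¹ = y := inv_eq_of_mul_eq_one_right h7
    rw [h8]
    exact hy
  obtain ⟨r, hr, hr0⟩ : ∃ r ∈ R, r ≠ 0 := by
    obtain ⟨r, hr, hr0⟩ := hinf.exists_notMem_finset {0}
    exact ⟨r, hr, fun h => hr0 (by simp [h])⟩
  have hone : (1 : K) ∈ R := by
    have := hmul r hr _ (hinv r hr hr0)
    rwa [mul_inv_cancel₀ hr0] at this
  refine ⟨{ carrier := R, mul_mem' := fun {a b} ha hb => hmul a ha b hb, one_mem' := hone,
            add_mem' := fun {a b} ha hb => R.add_mem ha hb, zero_mem' := R.zero_mem,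
            neg_mem' := fun {a} ha => R.neg_mem ha, inv_mem' := ?_ }, rfl⟩
  intro x hx
  by_cases h0 : x = 0
  · rw [h0, inv_zero]
    exact R.zero_mem
  · exact hinv x hx h0

end Pool.Agent.H34.BCP
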